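import Mathlib
import Pool.Agent.H.MP_029391_gt.Main

set_option autoImplicit false

namespace Pool.Agent.Results.MP_c3dba2_gt.Pointwise

open Set Metric Pool.Agent.H.MP_029391_gt

universe u

def c : Fin 3 → Fin 3 → ℤ := ![![0, 10, 30], ![0, 8, 28], ![0, 10, 28]]

def Y (_ : Fin 3) : Type := Fin 3

instance (i : Fin 3) : MetricSpace (Y i) where
  dist x y := (|c i x - c i y| : ℤ)
  dist_self x := by simp
  dist_comm x y := by rw [abs_sub_comm]
  dist_triangle x y z := by exact_mod_cast abs_sub_le _ _ _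
  eq_of_dist_eq_zero {x y} h :=
    (by decide : ∀ i x y, |c i x - c i y| = 0 → x = y) i x y (by exact_mod_cast h)

instance (i : Fin 3) : Finite (Y i) := inferInstanceAs (Finite (Fin 3))
instance (i : Fin 3) : Nonempty (Y i) := inferInstanceAs (Nonempty (Fin 3))

lemma vec (f : Fin 3 → Fin 3) : ![f 0, f 1, f 2] = f := by
  ext x
  fin_cases x <;> rfl

def D (i j : Fin 3) : Set (Y i × Y j) := {p | p.1 = p.2}

lemma corr (i j : Fin 3) : Corr (D i j) := ⟨fun x => ⟨x, rfl⟩, fun x => ⟨x, rfl⟩⟩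

lemma dis_D (i j : Fin 3) : dis (D i j) ≤ ((if i = j then 0 else 2 : ℤ) : ℝ) := by
  refine dis_le (by split_ifs <;> simp) ?_
  rintro ⟨x, _⟩ (rfl : x = _) ⟨y, _⟩ (rfl : y = _)
  change |((|c i x - c i y| : ℤ) : ℝ) - (|c j x - c j y| : ℤ)| ≤ _
  exact_mod_cast (by decide : ∀ i j x y,
    |(|c i x - c i y| - |c j x - c j y|)| ≤ if i = j then 0 else 2) i j x y

theorem result : ∃ (X : Fin 3 → Type) (_ : ∀ i, MetricSpace (X i)) (_ : ∀ i, CompactSpace (X i))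
    (_ : ∀ i, Nonempty (X i)),
    (∃ R : Set (∀ i, X i), ∀ i j, Opt ((fun r => (r i, r j)) '' R)) ∧
    ¬ ∃ (Z : Type u) (_ : MetricSpace Z) (φ : ∀ i, X i → Z), (∀ i, Isometry (φ i)) ∧
      ∀ i j, hausdorffDist (range (φ i)) (range (φ j)) = dGH (X i) (X j) := by
  refine ⟨Y, inferInstance, inferInstance, inferInstance,
    ⟨range fun x _ : Fin 3 => x, fun i j => ?_⟩, fun ⟨Z, _, φ, hφ, h⟩ => ?_⟩
  · have e : (fun r : ∀ i, Y i => (r i, r j)) '' (range fun x _ : Fin 3 => x) = D i j := by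
      ext ⟨x, y⟩
      exact ⟨fun ⟨_, ⟨_, h⟩, h'⟩ => h' ▸ h ▸ rfl, fun h => ⟨_, ⟨x, rfl⟩, Prod.ext rfl h⟩⟩
    rw [e]
    refine ⟨corr i j, le_antisymm (mul_le_mul_of_nonneg_left
      (le_csInf ⟨_, _, corr i j, rfl⟩ ?_) (by norm_num)) (dGH_le (corr i j))⟩
    rintro _ ⟨S, hS, rfl⟩
    choose f hf using hS.1
    obtain ⟨x, y, h⟩ := (by decide +kernel : ∀ i j a b e : Fin 3, ∃ x y, (if i = j then 0 else 2) ≤
      |(|c i x - c i y| - |c j (![a, b, e] x) - c j (![a, b, e] y)|)|) i j (f (0 : Fin 3))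
        (f (1 : Fin 3)) (f (2 : Fin 3))
    rw [vec f] at h
    refine (dis_D i j).trans (le_trans ?_ (le_dis (hf x) (hf y)))
    change _ ≤ |((|c i x - c i y| : ℤ) : ℝ) - (|c j (f x) - c j (f y)| : ℤ)|
    exact_mod_cast h
  have h1 (i j) (x : Fin 3) : dist (φ i x) (φ j x) < 1.2 := by
    have h1 : hausdorffDist (range (φ i)) (range (φ j)) < 1.2 := by
      have h1 := dis_D i j
      have h2 := dGH_le (corr i j)
      rw [h]
      split_ifs at h1 <;> push_cast at h1 <;> linarith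
    have h2 (x : Fin 3) : ∃ y : Fin 3, dist (φ i x) (φ j y) < 1.2 := by
      obtain ⟨_, ⟨y, rfl⟩, hy⟩ := exists_dist_lt_of_hausdorffDist_lt (mem_range_self (f := φ i) x) h1
        (hausdorffEDist_ne_top_of_nonempty_of_bounded (range_nonempty _) (range_nonempty _)
          (finite_range _).isBounded (finite_range _).isBounded)
      exact ⟨y, hy⟩
    choose f hf using h2
    have h4 := (by decide +kernel : ∀ i j a b e : Fin 3,
      (∀ x y, |(|c i x - c i y| - |c j (![a, b, e] x) - c j (![a, b, e] y)|)| ≤ 2) →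
        ∀ x, ![a, b, e] x = x) i j (f 0) (f 1) (f 2)
    rw [vec f] at h4
    refine (congrArg (fun y : Fin 3 => dist (φ i x) (φ j y)) (h4 (fun x y => ?_) x)).ge.trans_lt (hf x)
    have e1 : ((|c i x - c i y| : ℤ) : ℝ) = _ := ((hφ i).dist_eq x y).symm
    have e2 : ((|c j (f x) - c j (f y)| : ℤ) : ℝ) = _ := ((hφ j).dist_eq _ _).symm
    have := dist_dist_dist_le (φ i x) (φ i y) (φ j (f x)) (φ j (f y))
    rw [Real.dist_eq, ← e1, ← e2] at this
    have h4 : |((|c i x - c i y| : ℤ) : ℝ) - (|c j (f x) - c j (f y)| : ℤ)| < 3 := by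
      linarith [hf x, hf y]
    exact Int.lt_add_one_iff.1 (by exact_mod_cast h4)
  have e1 : dist (φ 0 (0 : Fin 3)) (φ 0 (2 : Fin 3)) = ((30 : ℤ) : ℝ) := (hφ 0).dist_eq _ _
  have e2 : dist (φ 1 (0 : Fin 3)) (φ 1 (1 : Fin 3)) = ((8 : ℤ) : ℝ) := (hφ 1).dist_eq _ _
  have e3 : dist (φ 2 (1 : Fin 3)) (φ 2 (2 : Fin 3)) = ((18 : ℤ) : ℝ) := (hφ 2).dist_eq _ _
  push_cast at e1 e2 e3
  linarith [h1 0 1 0, h1 1 2 1, h1 2 0 2,
    dist_triangle4 (φ 0 (0 : Fin 3)) (φ 1 (0 : Fin 3)) (φ 1 (1 : Fin 3)) (φ 2 (1 : Fin 3)),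
    dist_triangle4 (φ 0 (0 : Fin 3)) (φ 2 (1 : Fin 3)) (φ 2 (2 : Fin 3)) (φ 0 (2 : Fin 3))]

end Pool.Agent.Results.MP_c3dba2_gt.Pointwise
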